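import Pool.Agent.H98.MO.Mod

/-!
# [H98 MO Lin] Groups which are solvable-by-linear

`lin`: every group `G` with a homomorphism with solvable kernel to the automorphism group of a finitely generated module over a
commutative ring is in the class.
-/

set_option autoImplicit false

namespace Pool.Agent.H98.MO

open Pool.Agent.H98.FJ

/-- solvable-by-linear groups -/
theorem lin {C : (G : Type) → [Group G] → Prop} (hC : Inherits C) (hE : Extension C)
    (hS : ∀ (G : Type) [Group G], Group.IsSolvable G → C G) (hF : ∀ (F : Type) [Field F] (n : ℕ), C (GL (Fin n) F))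
    (G A M : Type) [Group G] [CommRing A] [AddCommGroup M] [Module A M] [Module.Finite A M] (f : G →* (M ≃ₗ[A] M))
    (hf : Group.IsSolvable f.ker) : C G :=
  Pool.Agent.H65.NT.solv_ext hC hE hS f hf (aut_mod hC hE hS hF A M)

/-- the special case of the matrices with entries in a commutative ring -/
theorem lin_gl {C : (G : Type) → [Group G] → Prop} (hC : Inherits C) (hE : Extension C)
    (hS : ∀ (G : Type) [Group G], Group.IsSolvable G → C G) (hF : ∀ (F : Type) [Field F] (n : ℕ), C (GL (Fin n) F))
    (G A : Type) [Group G] [CommRing A] (n : ℕ) (f : G →* GL (Fin n) A) (hf : Group.IsSolvable f.ker) : C G := by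
  let e : GL (Fin n) A →* (Module.End A (Fin n → A))ˣ :=
    Units.map (Matrix.toLinAlgEquiv' : Matrix (Fin n) (Fin n) A ≃ₐ[A] ((Fin n → A) →ₗ[A] (Fin n → A))).toMonoidHom
  have he : Function.Injective e := by
    intro g h hgh
    apply Units.ext
    apply (Matrix.toLinAlgEquiv' : Matrix (Fin n) (Fin n) A ≃ₐ[A] ((Fin n → A) →ₗ[A] (Fin n → A))).injective
    exact congrArg (fun u : (Module.End A (Fin n → A))ˣ => u.val) hgh
  refine Pool.Agent.H65.NT.solv_ext hC hE hS f hf ?_
  exact hC.of_injective e he (aut_units hC hE hS hF A (Fin n → A))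

end Pool.Agent.H98.MO
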