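import Pool.Agent.H98.MO.Lin

/-!
# [H98 MO Loc] Groups which are locally solvable-by-linear

`loc_lin`: a group is in the class if every finitely generated subgroup has a homomorphism with solvable kernel to the
automorphism group of a finitely generated module over a commutative ring (which may depend on the subgroup).
-/

set_option autoImplicit false

namespace Pool.Agent.H98.MO

open Pool.Agent.H98.FJ

/-- finitely generated subgroups -/
theorem of_fg {C : (G : Type) → [Group G] → Prop} (hC : Inherits C) (G : Type) [Group G]
    (h : ∀ H : Subgroup G, H.FG → C H) : C G := by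
  classical
  refine hC.union (ι := Finset G) (fun s => Subgroup.closure (s : Set G)) ?_ ?_ ?_
  · intro s t hst
    exact Subgroup.closure_mono (by exact_mod_cast hst)
  · intro g
    exact ⟨{g}, Subgroup.subset_closure (by simp)⟩
  · intro s
    exact h _ ⟨s, rfl⟩

/-- locally solvable-by-linear groups -/
theorem loc_lin {C : (G : Type) → [Group G] → Prop} (hC : Inherits C) (hE : Extension C)
    (hS : ∀ (G : Type) [Group G], Group.IsSolvable G → C G) (hF : ∀ (F : Type) [Field F] (n : ℕ), C (GL (Fin n) F))
    (G : Type) [Group G]
    (h : ∀ H : Subgroup G, H.FG → ∃ (A M : Type) (_ : CommRing A) (_ : AddCommGroup M) (_ : Module A M)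
      (_ : Module.Finite A M) (f : H →* (M ≃ₗ[A] M)), Group.IsSolvable f.ker) : C G := by
  refine of_fg hC G fun H hH => ?_
  obtain ⟨A, M, hA, hM, hAM, hfin, f, hf⟩ := h H hH
  exact lin hC hE hS hF H A M f hf

end Pool.Agent.H98.MO
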