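import Pool.Agent.H65.NT.Ring
import Pool.Agent.H54.NA.Par

/-!
# [H98 MO Inv] Automorphism groups of modules: invariant submodules, vector spaces, torsion free modules over domains
-/

set_option autoImplicit false

namespace Pool.Agent.H98.MO

open Pool.Agent.H98.FJ TensorProduct

/-- a fully invariant submodule -/
theorem step {C : (G : Type) → [Group G] → Prop} (hC : Inherits C) (hE : Extension C)
    (hS : ∀ (G : Type) [Group G], Group.IsSolvable G → C G) {A M : Type} [CommRing A] [AddCommGroup M] [Module A M]
    (N : Submodule A M) (hN : ∀ (f : Module.End A M) (x : M), x ∈ N → f x ∈ N) (h1 : C (Module.End A N)ˣ)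
    (h2 : C (Module.End A (M ⧸ N))ˣ) : C (Module.End A M)ˣ := by
  let r1 : Module.End A M →* Module.End A N :=
    { toFun := fun f => f.restrict (fun x hx => hN f x hx)
      map_one' := by
        ext x
        rfl
      map_mul' := fun f g => by
        ext x
        rfl }
  let r2 : Module.End A M →* Module.End A (M ⧸ N) :=
    { toFun := fun f => N.mapQ N f (fun x hx => hN f x hx)
      map_one' := by
        ext x
        rfl
      map_mul' := fun f g => by
        ext x
        rfl }
  refine Pool.Agent.H65.NT.solv_ext hC hE hS ((Units.map r1).prod (Units.map r2)) ?_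
    (Pool.Agent.H54.NA.prod_mem hC h1 h2)
  refine Group.isSolvable_of_comm fun g h => ?_
  have key : ∀ k : ((Units.map r1).prod (Units.map r2)).ker, (∀ x ∈ N, k.1.val x = x) ∧ ∀ x, k.1.val x - x ∈ N := by
    intro k
    have hk := k.2
    rw [MonoidHom.mem_ker] at hk
    have hk1 : Units.map r1 k.1 = 1 := congrArg Prod.fst hk
    have hk2 : Units.map r2 k.1 = 1 := congrArg Prod.snd hk
    constructor
    · intro x hx
      have h3 := congrArg (fun u : (Module.End A N)ˣ => ((u.val ⟨x, hx⟩ : N) : M)) hk1
      exact h3
    · intro x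
      have h3 := congrArg (fun u : (Module.End A (M ⧸ N))ˣ => u.val (Submodule.Quotient.mk x)) hk2
      have h4 : (Submodule.Quotient.mk (k.1.val x) : M ⧸ N) = Submodule.Quotient.mk x := h3
      exact (Submodule.Quotient.eq N).1 h4
  have hcomm : ∀ k l : ((Units.map r1).prod (Units.map r2)).ker, ∀ x, k.1.val (l.1.val x) = k.1.val x + l.1.val x - x := by
    intro k l x
    have h3 : l.1.val x = x + (l.1.val x - x) := by abel
    have h4 := (key k).1 _ ((key l).2 x)
    calc k.1.val (l.1.val x) = k.1.val (x + (l.1.val x - x)) := by rw [← h3]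
      _ = k.1.val x + (l.1.val x - x) := by rw [map_add, h4]
      _ = _ := by abel
  apply Subtype.ext
  apply Units.ext
  ext x
  show g.1.val (h.1.val x) = h.1.val (g.1.val x)
  rw [hcomm, hcomm]
  abel

/-- vector spaces -/
theorem vec {C : (G : Type) → [Group G] → Prop} (hC : Inherits C) (hF : ∀ (F : Type) [Field F] (n : ℕ), C (GL (Fin n) F))
    (K V : Type) [Field K] [AddCommGroup V] [Module K V] [Module.Finite K V] : C (Module.End K V)ˣ := by
  let b := Module.finBasis K V
  exact hC.iso _ _ (Units.mapEquiv (LinearMap.toMatrixAlgEquiv b).toMulEquiv).symm (hF K (Module.finrank K V))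

/-- torsion free modules over domains -/
theorem tfree {C : (G : Type) → [Group G] → Prop} (hC : Inherits C) (hF : ∀ (F : Type) [Field F] (n : ℕ), C (GL (Fin n) F))
    (D M : Type) [CommRing D] [IsDomain D] [AddCommGroup M] [Module D M] [Module.Finite D M]
    (ht : ∀ (d : D) (x : M), d ≠ 0 → d • x = 0 → x = 0) : C (Module.End D M)ˣ := by
  have h1 : Function.Injective (TensorProduct.mk D (FractionRing D) M 1) := by
    rw [injective_iff_map_eq_zero]
    intro x hx
    have h2 : IsLocalizedModule (nonZeroDivisors D) (TensorProduct.mk D (FractionRing D) M 1) := inferInstance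
    rw [IsLocalizedModule.eq_zero_iff (nonZeroDivisors D)] at hx
    obtain ⟨c, hc⟩ := hx
    exact ht c.1 x (nonZeroDivisors.ne_zero c.2) hc
  let f : Module.End D M →* Module.End (FractionRing D) (FractionRing D ⊗[D] M) :=
    { toFun := fun g => g.baseChange (FractionRing D)
      map_one' := by
        exact LinearMap.baseChange_id
      map_mul' := fun g h => by
        exact LinearMap.baseChange_comp _ _ }
  refine hC.of_injective (Units.map f) ?_ (vec hC hF (FractionRing D) (FractionRing D ⊗[D] M))
  intro g h hgh
  apply Units.ext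
  ext x
  apply h1
  have h3 := congrArg (fun u : (Module.End (FractionRing D) (FractionRing D ⊗[D] M))ˣ => u.val (1 ⊗ₜ[D] x)) hgh
  exact h3

/-- modules over a ring, killed by a prime ideal, torsion free over the quotient -/
theorem tfreeA {C : (G : Type) → [Group G] → Prop} (hC : Inherits C) (hF : ∀ (F : Type) [Field F] (n : ℕ), C (GL (Fin n) F))
    (A M : Type) [CommRing A] [AddCommGroup M] [Module A M] [Module.Finite A M] (I : Ideal A) (hI : I.IsPrime)
    (hIM : ∀ a ∈ I, ∀ x : M, a • x = 0) (ht : ∀ (d : A) (x : M), d ∉ I → d • x = 0 → x = 0) : C (Module.End A M)ˣ := by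
  have htor : Module.IsTorsionBySet A M I := fun x a => hIM a.1 a.2 x
  let mD : Module (A ⧸ I) M := htor.module
  have hmk : ∀ (a : A) (x : M), (Ideal.Quotient.mk I a) • x = a • x := fun a x => rfl
  have hfin : Module.Finite (A ⧸ I) M := by
    obtain ⟨s, hs⟩ := (inferInstance : Module.Finite A M)
    refine ⟨⟨s, ?_⟩⟩
    rw [eq_top_iff]
    intro x _
    have hx : x ∈ Submodule.span A (s : Set M) := by rw [hs]; trivial
    induction hx using Submodule.span_induction with
    | mem x h => exact Submodule.subset_span h
    | zero => exact Submodule.zero_mem _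
    | add x y _ _ h1 h2 => exact Submodule.add_mem _ (h1 trivial) (h2 trivial)
    | smul a x _ h =>
      rw [← hmk]
      exact Submodule.smul_mem _ _ (h trivial)
  have hdom : IsDomain (A ⧸ I) := inferInstance
  have h1 := tfree hC hF (A ⧸ I) M (by
    intro d x hd hx
    obtain ⟨a, rfl⟩ := Ideal.Quotient.mk_surjective d
    refine ht a x ?_ hx
    intro ha
    exact hd (Ideal.Quotient.eq_zero_iff_mem.2 ha))
  let f : Module.End A M →* Module.End (A ⧸ I) M :=
    { toFun := fun g =>
        { toFun := g
          map_add' := g.map_add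
          map_smul' := fun d x => by
            obtain ⟨a, rfl⟩ := Ideal.Quotient.mk_surjective d
            exact g.map_smul a x }
      map_one' := rfl
      map_mul' := fun _ _ => rfl }
  refine hC.of_injective (Units.map f) ?_ h1
  intro g h hgh
  apply Units.ext
  ext x
  have h3 := congrArg (fun u : (Module.End (A ⧸ I) M)ˣ => u.val x) hgh
  exact h3

end Pool.Agent.H98.MO
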