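import Pool.Agent.H98.MO.Noe

/-!
# [H98 MO Mod] Automorphism groups of finitely generated modules over commutative rings

If a class of groups with the inheritance and extension properties contains the solvable groups and `GL_n` of all fields then it
contains `Aut_A(M)` for every commutative ring `A` and every finitely generated `A`-module `M`, and the units of every algebra
which is finitely generated as a module over a commutative ring.
-/

set_option autoImplicit false

namespace Pool.Agent.H98.MO

open Pool.Agent.H98.FJ

theorem noeth_closure {A : Type} [CommRing A] (t : Finset A) : IsNoetherianRing (Subring.closure (t : Set A)) := by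
  have h2 : (Algebra.adjoin ℤ (t : Set A)).FG := ⟨t, rfl⟩
  have h3 : Algebra.FiniteType ℤ (Algebra.adjoin ℤ (t : Set A)) := (Subalgebra.fg_iff_finiteType _).1 h2
  have h4 : (Algebra.adjoin ℤ (t : Set A)).toSubring = Subring.closure (t : Set A) := by
    rw [Algebra.adjoin_int]
    rfl
  let e : Algebra.adjoin ℤ (t : Set A) →ₐ[ℤ] Subring.closure (t : Set A) :=
    { toFun := fun x => ⟨x.1, h4 ▸ x.2⟩
      map_one' := rfl
      map_mul' := fun _ _ => rfl
      map_zero' := rfl
      map_add' := fun _ _ => rfl
      commutes' := fun _ => rfl }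
  have he : Function.Surjective e := fun y => ⟨⟨y.1, (SetLike.ext_iff.1 h4 y.1).2 y.2⟩, rfl⟩
  have h5 : Algebra.FiniteType ℤ (Subring.closure (t : Set A)) := h3.of_surjective e he
  exact Algebra.FiniteType.isNoetherianRing ℤ _

/-- the automorphisms which preserve a submodule over a subring -/
def Pre {A M : Type} [CommRing A] [AddCommGroup M] [Module A M] (A₀ : Subring A) (M₀ : Submodule A₀ M) :
    Subgroup (Module.End A M)ˣ where
  carrier := {g | (∀ y ∈ M₀, g.val y ∈ M₀) ∧ ∀ y ∈ M₀, (g⁻¹).val y ∈ M₀}
  one_mem' := ⟨fun _ h => h, fun y h => by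
    rw [inv_one]
    exact h⟩
  mul_mem' := by
    rintro g h ⟨h1, h2⟩ ⟨h3, h4⟩
    refine ⟨fun y hy => h1 _ (h3 y hy), fun y hy => ?_⟩
    rw [mul_inv_rev]
    exact h4 _ (h2 y hy)
  inv_mem' := by
    rintro g ⟨h1, h2⟩
    refine ⟨h2, fun y hy => ?_⟩
    rw [inv_inv]
    exact h1 y hy

/-- the action on the submodule -/
def preHom {A M : Type} [CommRing A] [AddCommGroup M] [Module A M] (A₀ : Subring A) (M₀ : Submodule A₀ M) :
    Pre A₀ M₀ →* Module.End A₀ M₀ where
  toFun g :=
    { toFun := fun y => ⟨g.1.val y, g.2.1 y y.2⟩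
      map_add' := fun y z => Subtype.ext (map_add g.1.val (y : M) z)
      map_smul' := fun c y => Subtype.ext (g.1.val.map_smul (c : A) (y : M)) }
  map_one' := by
    ext y
    rfl
  map_mul' g h := by
    ext y
    rfl

theorem aut_units {C : (G : Type) → [Group G] → Prop} (hC : Inherits C) (hE : Extension C)
    (hS : ∀ (G : Type) [Group G], Group.IsSolvable G → C G) (hF : ∀ (F : Type) [Field F] (n : ℕ), C (GL (Fin n) F))
    (A M : Type) [CommRing A] [AddCommGroup M] [Module A M] [Module.Finite A M] : C (Module.End A M)ˣ := by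
  classical
  obtain ⟨r, x, hx⟩ := Module.Finite.exists_fin (R := A) (M := M)
  have h1 : ∀ (g : (Module.End A M)ˣ) (j : Fin r), ∃ c : Fin r → A, ∑ i, c i • x i = g.val (x j) := by
    intro g j
    rw [← Submodule.mem_span_range_iff_exists_fun, hx]
    trivial
  choose a ha using h1
  refine hC.union (ι := Finset (Module.End A M)ˣ) (fun s => Subgroup.closure (s : Set (Module.End A M)ˣ)) ?_ ?_ ?_
  · intro s t hst
    exact Subgroup.closure_mono (by exact_mod_cast hst)
  · intro g
    exact ⟨{g}, Subgroup.subset_closure (by simp)⟩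
  · intro s
    obtain ⟨t, ht⟩ : ∃ t : Finset A, ∀ g ∈ s, ∀ j i, a g j i ∈ t ∧ a g⁻¹ j i ∈ t := by
      refine ⟨(s.biUnion fun g => Finset.univ.biUnion fun j => Finset.univ.image fun i => a g j i) ∪
        (s.biUnion fun g => Finset.univ.biUnion fun j => Finset.univ.image fun i => a g⁻¹ j i), fun g hg j i => ?_⟩
      simp only [Finset.mem_union, Finset.mem_biUnion, Finset.mem_image, Finset.mem_univ, true_and]
      exact ⟨Or.inl ⟨g, hg, j, i, rfl⟩, Or.inr ⟨g, hg, j, i, rfl⟩⟩
    obtain ⟨A₀, hA₀⟩ : ∃ A₀ : Subring A, A₀ = Subring.closure (t : Set A) := ⟨_, rfl⟩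
    have hno : IsNoetherianRing A₀ := by
      rw [hA₀]
      exact noeth_closure t
    have hmem : ∀ c ∈ t, c ∈ A₀ := fun c hc => by
      rw [hA₀]
      exact Subring.subset_closure hc
    have hM₀ : Module.Finite A₀ (Submodule.span A₀ (Set.range x)) :=
      Module.Finite.iff_fg.2 (Submodule.fg_span (Set.finite_range x))
    have hpres : ∀ g : (Module.End A M)ˣ, (∀ j i, a g j i ∈ t) →
        ∀ y ∈ Submodule.span A₀ (Set.range x), g.val y ∈ Submodule.span A₀ (Set.range x) := by
      intro g hg y hy
      induction hy using Submodule.span_induction with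
      | mem y hy =>
        obtain ⟨j, rfl⟩ := hy
        rw [← ha g j]
        refine Submodule.sum_mem _ fun i _ => ?_
        have h2 : (⟨a g j i, hmem _ (hg j i)⟩ : A₀) • x i ∈ Submodule.span A₀ (Set.range x) :=
          Submodule.smul_mem _ _ (Submodule.subset_span ⟨i, rfl⟩)
        exact h2
      | zero =>
        rw [map_zero]
        exact Submodule.zero_mem _
      | add y z _ _ h2 h3 =>
        rw [map_add]
        exact Submodule.add_mem _ h2 h3
      | smul c y _ h2 =>
        have h3 : g.val (c • y) = c • g.val y := g.val.map_smul (c : A) y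
        rw [h3]
        exact Submodule.smul_mem _ _ h2
    have hle : Subgroup.closure (s : Set (Module.End A M)ˣ) ≤ Pre A₀ (Submodule.span A₀ (Set.range x)) := by
      rw [Subgroup.closure_le]
      intro g hg
      exact ⟨hpres g fun j i => (ht g hg j i).1, hpres g⁻¹ fun j i => (ht g hg j i).2⟩
    have h5 : C (Module.End A₀ (Submodule.span A₀ (Set.range x)))ˣ :=
      noeth hC hE hS hF A₀ ⊥ _ (fun c hc y => by
        rw [Ideal.mem_bot] at hc
        rw [hc, zero_smul])
    have h6 : C (Pre A₀ (Submodule.span A₀ (Set.range x))) := by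
      refine hC.of_injective (preHom A₀ (Submodule.span A₀ (Set.range x))).toHomUnits ?_ h5
      intro g h hgh
      apply Subtype.ext
      apply Units.ext
      refine LinearMap.ext_on_range (v := x) hx fun j => ?_
      have h7 := congrArg (fun u : (Module.End A₀ (Submodule.span A₀ (Set.range x)))ˣ =>
        ((u.val ⟨x j, Submodule.subset_span ⟨j, rfl⟩⟩ : Submodule.span A₀ (Set.range x)) : M)) hgh
      exact h7
    exact hC.of_injective (Subgroup.inclusion hle) (Subgroup.inclusion_injective hle) h6

/-- the automorphism groups of the finitely generated modules over commutative rings -/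
theorem aut_mod {C : (G : Type) → [Group G] → Prop} (hC : Inherits C) (hE : Extension C)
    (hS : ∀ (G : Type) [Group G], Group.IsSolvable G → C G) (hF : ∀ (F : Type) [Field F] (n : ℕ), C (GL (Fin n) F))
    (A M : Type) [CommRing A] [AddCommGroup M] [Module A M] [Module.Finite A M] : C (M ≃ₗ[A] M) :=
  hC.iso _ _ (LinearMap.GeneralLinearGroup.generalLinearEquiv A M) (aut_units hC hE hS hF A M)

/-- the units of the algebras which are finitely generated modules over a commutative ring -/
theorem units_alg {C : (G : Type) → [Group G] → Prop} (hC : Inherits C) (hE : Extension C)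
    (hS : ∀ (G : Type) [Group G], Group.IsSolvable G → C G) (hF : ∀ (F : Type) [Field F] (n : ℕ), C (GL (Fin n) F))
    (A R : Type) [CommRing A] [Ring R] [Algebra A R] [Module.Finite A R] : C Rˣ := by
  refine hC.of_injective (Units.map (Algebra.lmul A R : R →ₐ[A] Module.End A R).toRingHom.toMonoidHom) ?_
    (aut_units hC hE hS hF A R)
  intro g h hgh
  apply Units.ext
  have h1 := congrArg (fun u : (Module.End A R)ˣ => u.val 1) hgh
  have h2 : g.val * 1 = h.val * 1 := h1
  rwa [mul_one, mul_one] at h2

/-- `GL_n` of the algebras which are finitely generated modules over a commutative ring -/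
theorem gl_alg {C : (G : Type) → [Group G] → Prop} (hC : Inherits C) (hE : Extension C)
    (hS : ∀ (G : Type) [Group G], Group.IsSolvable G → C G) (hF : ∀ (F : Type) [Field F] (n : ℕ), C (GL (Fin n) F))
    (A R : Type) [CommRing A] [Ring R] [Algebra A R] [Module.Finite A R] (n : ℕ) :
    C (Matrix (Fin n) (Fin n) R)ˣ := by
  have h : Module.Finite A (Matrix (Fin n) (Fin n) R) := inferInstanceAs (Module.Finite A (Fin n → Fin n → R))
  exact units_alg hC hE hS hF A (Matrix (Fin n) (Fin n) R)

end Pool.Agent.H98.MO
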