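import Pool.Agent.H98.MO.Inv

/-!
# [H98 MO Noe] Automorphism groups of finitely generated modules over noetherian rings
-/

set_option autoImplicit false

namespace Pool.Agent.H98.MO

open Pool.Agent.H98.FJ

/-- the torsion submodule with respect to a prime ideal -/
def Tor {A M : Type} [CommRing A] [AddCommGroup M] [Module A M] (I : Ideal A) (hI : I.IsPrime) : Submodule A M where
  carrier := {x | ∃ d : A, d ∉ I ∧ d • x = 0}
  zero_mem' := ⟨1, (Ideal.ne_top_iff_one I).1 hI.ne_top, smul_zero _⟩
  add_mem' := by
    rintro x y ⟨d, hd, hx⟩ ⟨e, he, hy⟩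
    refine ⟨d * e, fun h => ?_, ?_⟩
    · rcases hI.mem_or_mem h with h | h
      · exact hd h
      · exact he h
    · rw [smul_add, mul_smul d e y, hy, smul_zero, add_zero, mul_comm, mul_smul, hx, smul_zero]
  smul_mem' := by
    rintro a x ⟨d, hd, hx⟩
    exact ⟨d, hd, by rw [← mul_smul, mul_comm, mul_smul, hx, smul_zero]⟩

/-- one element kills a finitely generated torsion submodule -/
theorem tor_ann {A M : Type} [CommRing A] [AddCommGroup M] [Module A M] (I : Ideal A) (hI : I.IsPrime)
    (hfg : (Tor (M := M) I hI).FG) : ∃ d : A, d ∉ I ∧ ∀ x ∈ Tor (M := M) I hI, d • x = 0 := by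
  classical
  obtain ⟨s, hs⟩ := hfg
  have h1 : ∀ t : Finset M, (∀ x ∈ t, x ∈ Tor (M := M) I hI) → ∃ d : A, d ∉ I ∧ ∀ x ∈ t, d • x = 0 := by
    intro t
    induction t using Finset.induction_on with
    | empty => exact fun _ => ⟨1, (Ideal.ne_top_iff_one I).1 hI.ne_top, fun x hx => absurd hx (Finset.notMem_empty x)⟩
    | insert a t _ ih =>
      intro ht
      obtain ⟨d, hd, h⟩ := ih fun x hx => ht x (Finset.mem_insert_of_mem hx)
      obtain ⟨e, he, h'⟩ := ht a (Finset.mem_insert_self a t)
      refine ⟨e * d, fun h => ?_, ?_⟩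
      · rcases hI.mem_or_mem h with h | h
        · exact he h
        · exact hd h
      · intro x hx
        rcases Finset.mem_insert.1 hx with rfl | hx
        · rw [mul_comm, mul_smul, h', smul_zero]
        · rw [mul_smul, h x hx, smul_zero]
  obtain ⟨d, hd, h⟩ := h1 s fun x hx => by
    rw [← hs]
    exact Submodule.subset_span hx
  refine ⟨d, hd, fun x hx => ?_⟩
  rw [← hs] at hx
  induction hx using Submodule.span_induction with
  | mem x hx => exact h x hx
  | zero => exact smul_zero _
  | add x y _ _ h1 h2 => rw [smul_add, h1, h2, add_zero]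
  | smul a x _ h1 => rw [← mul_smul, mul_comm, mul_smul, h1, smul_zero]

/-- noetherian rings -/
theorem noeth {C : (G : Type) → [Group G] → Prop} (hC : Inherits C) (hE : Extension C)
    (hS : ∀ (G : Type) [Group G], Group.IsSolvable G → C G) (hF : ∀ (F : Type) [Field F] (n : ℕ), C (GL (Fin n) F))
    (A : Type) [CommRing A] [IsNoetherianRing A] (I : Ideal A) :
    ∀ (M : Type) [AddCommGroup M] [Module A M] [Module.Finite A M], (∀ a ∈ I, ∀ x : M, a • x = 0) →
      C (Module.End A M)ˣ := by
  induction I using WellFoundedGT.induction with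
  | ind I ih =>
    intro M _ _ _ hIM
    have hadd : ∀ (b : A), b ∉ I → I < I ⊔ Ideal.span {b} := by
      intro b hb
      refine lt_of_le_of_ne le_sup_left fun h => hb ?_
      rw [h]
      exact Ideal.mem_sup_right (Ideal.mem_span_singleton_self b)
    by_cases htop : I = ⊤
    · have h1 : ∀ x : M, x = 0 := by
        intro x
        have := hIM 1 (by rw [htop]; trivial) x
        rwa [one_smul] at this
      refine hC.fin _ ?_
      have h2 : Subsingleton (Module.End A M) := ⟨fun f g => by ext x; rw [h1 (f x), h1 (g x)]⟩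
      have h3 : Subsingleton (Module.End A M)ˣ := ⟨fun f g => Units.ext (Subsingleton.elim _ _)⟩
      exact inferInstance
    by_cases hp : I.IsPrime
    · have hN : IsNoetherian A M := inferInstance
      obtain ⟨d, hd, hdT⟩ := tor_ann (M := M) I hp (hN.noetherian _)
      refine step hC hE hS (Tor (M := M) I hp) ?_ ?_ ?_
      · rintro f x ⟨e, he, hx⟩
        exact ⟨e, he, by rw [← map_smul, hx, map_zero]⟩
      · refine ih _ (hadd d hd) _ ?_
        intro a ha x
        rw [sup_comm, Ideal.mem_span_singleton_sup] at ha
        obtain ⟨c, i, hi, rfl⟩ := ha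
        apply Subtype.ext
        show (c * d + i) • (x : M) = 0
        rw [add_smul, hIM i hi, add_zero, mul_smul, hdT x x.2, smul_zero]
      · refine tfreeA hC hF A _ I hp ?_ ?_
        · intro a ha x
          obtain ⟨y, rfl⟩ := Submodule.Quotient.mk_surjective _ x
          rw [← Submodule.Quotient.mk_smul, hIM a ha, Submodule.Quotient.mk_zero]
        · intro e x he hx
          obtain ⟨y, rfl⟩ := Submodule.Quotient.mk_surjective _ x
          rw [← Submodule.Quotient.mk_smul, Submodule.Quotient.mk_eq_zero] at hx
          obtain ⟨e', he', hy⟩ := hx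
          rw [Submodule.Quotient.mk_eq_zero]
          refine ⟨e' * e, fun h => ?_, ?_⟩
          · rcases hp.mem_or_mem h with h | h
            · exact he' h
            · exact he h
          · rw [mul_smul]
            exact hy
    · have h1 : ∃ a b : A, a * b ∈ I ∧ a ∉ I ∧ b ∉ I := by
        by_contra hcon
        apply hp
        refine ⟨htop, ?_⟩
        intro a b hab
        by_contra h2
        rw [not_or] at h2
        exact hcon ⟨a, b, hab, h2.1, h2.2⟩
      obtain ⟨a, b, hab, ha, hb⟩ := h1
      have hN : IsNoetherian A M := inferInstance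
      refine step hC hE hS (LinearMap.range (LinearMap.lsmul A M a)) ?_ ?_ ?_
      · rintro f _ ⟨x, rfl⟩
        exact ⟨f x, by rw [LinearMap.lsmul_apply, LinearMap.lsmul_apply, map_smul]⟩
      · refine ih _ (hadd b hb) _ ?_
        rintro e he ⟨_, x, rfl⟩
        rw [sup_comm, Ideal.mem_span_singleton_sup] at he
        obtain ⟨c, i, hi, rfl⟩ := he
        apply Subtype.ext
        show (c * b + i) • (a • x) = 0
        rw [add_smul, hIM i hi, add_zero, ← mul_smul, show c * b * a = c * (a * b) by ring, mul_smul, hIM _ hab, smul_zero]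
      · refine ih _ (hadd a ha) _ ?_
        intro e he x
        obtain ⟨y, rfl⟩ := Submodule.Quotient.mk_surjective _ x
        rw [sup_comm, Ideal.mem_span_singleton_sup] at he
        obtain ⟨c, i, hi, rfl⟩ := he
        rw [← Submodule.Quotient.mk_smul, add_smul, hIM i hi, add_zero, Submodule.Quotient.mk_eq_zero]
        exact ⟨c • y, by rw [LinearMap.lsmul_apply, ← mul_smul, mul_comm]⟩

end Pool.Agent.H98.MO
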